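import Pool.Agent.W840.TP.Defs

/-!
# Sparse random 2-CNF formulas are satisfiable with probability at least `1/2` (task TP-8)

Hall's theorem and a union bound.
-/

set_option autoImplicit false

namespace Pool.Agent.W108.TP
open Finset Filter Pool.Agent.H999R2.KSat Pool.Agent.W840.TP

/-- the formula has a set of clauses whose variables lie in a smaller set -/
def BadH {n m : ℕ} (F : Fin m → Cl n 2) : Prop :=
  ∃ z : Finset (Fin m) × Finset (Fin n), z.2.card + 1 = z.1.card ∧
    ∀ j ∈ z.1, ∀ p, (F j p).1 ∈ z.2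

theorem sat_of_not_bad {n m : ℕ} (hmn : m ≤ n) (F : Fin m → Cl n 2) (h : ¬ BadH F) :
    (Sol F).Nonempty := by
  classical
  let t : Fin m → Finset (Fin n) := fun j => univ.image (fun p => (F j p).1)
  have hall : ∀ s : Finset (Fin m), s.card ≤ (s.biUnion t).card := by
    intro s
    by_contra hcon
    push Not at hcon
    apply h
    have hs : s.card ≤ m := by simpa using Finset.card_le_univ s
    obtain ⟨V, hV1, hV2⟩ := Finset.exists_superset_card_eq (s := s.biUnion t) (n := s.card - 1)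
      (by omega) (by rw [Fintype.card_fin]; omega)
    refine ⟨(s, V), ?_, ?_⟩
    · show V.card + 1 = s.card
      omega
    · intro j hj p
      apply hV1
      rw [Finset.mem_biUnion]
      exact ⟨j, hj, Finset.mem_image_of_mem _ (Finset.mem_univ p)⟩
  obtain ⟨f, hf1, hf2⟩ := (Finset.all_card_le_biUnion_card_iff_exists_injective t).mp hall
  have hch : ∀ j, ∃ p, (F j p).1 = f j := by
    intro j
    have := hf2 j
    simp only [t, Finset.mem_image, Finset.mem_univ, true_and] at this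
    exact this
  choose pp hpp using hch
  refine ⟨fun i => if hi : ∃ j, f j = i then (F hi.choose (pp hi.choose)).2 else true, ?_⟩
  intro j
  refine ⟨pp j, ?_⟩
  have hi : ∃ j', f j' = (F j (pp j)).1 := ⟨j, (hpp j).symm⟩
  have hj : hi.choose = j := hf1 (by rw [hi.choose_spec, hpp j])
  show (if hi : ∃ j', f j' = (F j (pp j)).1 then (F hi.choose (pp hi.choose)).2 else true) = _
  rw [dif_pos hi, hj]

theorem E_ind_mem {n : ℕ} (V : Finset (Fin n)) :
    E (fun l : Lit n => ind (l.1 ∈ V)) = (V.card : ℝ) / n := by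
  classical
  rw [E_prod (fun (i : Fin n) (_ : Bool) => ind (i ∈ V))]
  simp only [E_const]
  unfold E
  rw [Fintype.card_fin]
  congr 1
  calc ∑ x : Fin n, ind (x ∈ V) = ∑ x ∈ V, ind (x ∈ V) :=
        (Finset.sum_subset (Finset.subset_univ V) (fun x _ hx => ind_false hx)).symm
    _ = ∑ x ∈ V, (1 : ℝ) := Finset.sum_congr rfl (fun x hx => ind_true hx)
    _ = _ := by simp

theorem E_bad_pair {n m : ℕ} (hn : 0 < n) (S : Finset (Fin m)) (V : Finset (Fin n)) :
    E (fun F : Fin m → Cl n 2 => ind (∀ j ∈ S, ∀ p, (F j p).1 ∈ V)) =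
      ((V.card : ℝ) / n) ^ (2 * S.card) := by
  classical
  have : NeZero n := ⟨hn.ne'⟩
  have h1 : ∀ F : Fin m → Cl n 2, ind (∀ j ∈ S, ∀ p, (F j p).1 ∈ V) =
      ∏ j, (if j ∈ S then ∏ p, ind ((F j p).1 ∈ V) else 1) := by
    intro F
    rw [ind_forall]
    refine Finset.prod_congr rfl (fun j _ => ?_)
    split_ifs with hj
    · rw [← ind_forall]
      exact ind_congr ⟨fun h => h hj, fun h _ => h⟩
    · exact ind_true (fun h => absurd h hj)
  rw [E_congr h1, E_pi (fun (j : Fin m) (c : Cl n 2) =>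
    if j ∈ S then ∏ p, ind ((c p).1 ∈ V) else 1)]
  have h2 : ∀ j : Fin m, E (fun c : Cl n 2 => if j ∈ S then ∏ p, ind ((c p).1 ∈ V) else 1) =
      if j ∈ S then ((V.card : ℝ) / n) ^ 2 else 1 := by
    intro j
    split_ifs with hj
    · rw [E_pi (fun (_ : Fin 2) (l : Lit n) => ind (l.1 ∈ V))]
      simp only [E_ind_mem, Finset.prod_const, Finset.card_univ, Fintype.card_fin]
    · exact E_const 1
  rw [Finset.prod_congr rfl (fun j _ => h2 j), Finset.prod_ite_mem, Finset.univ_inter,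
    Finset.prod_const, ← pow_mul]

theorem term_le (n m k : ℕ) (hn : 0 < n) (hm : (m : ℝ) ≤ 1 / 100 * n) :
    (m.choose (k + 1) : ℝ) * ((n.choose k : ℝ) * ((k : ℝ) / n) ^ (2 * (k + 1))) ≤
      (1 / 4) ^ (k + 1) * (1 / n) := by
  have hn' : (0 : ℝ) < n := by exact_mod_cast hn
  have h1 : (m.choose (k + 1) : ℝ) ≤ (1 / 100 * n : ℝ) ^ (k + 1) / ((k + 1).factorial : ℝ) :=
    (Nat.choose_le_pow_div (k + 1) m).trans
      (div_le_div_of_nonneg_right (pow_le_pow_left₀ (Nat.cast_nonneg m) hm _) (by positivity))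
  have h2 : (n.choose k : ℝ) ≤ (n : ℝ) ^ k / (k.factorial : ℝ) := Nat.choose_le_pow_div k n
  have h3 : (k : ℝ) ^ k ≤ 3 ^ k * (k.factorial : ℝ) := by
    have e1 := Real.pow_div_factorial_le_exp (k : ℝ) (Nat.cast_nonneg k) k
    have e2 : Real.exp (k : ℝ) ≤ 3 ^ k := by
      rw [← Real.exp_one_pow]
      exact pow_le_pow_left₀ (Real.exp_pos 1).le (by have := Real.exp_one_lt_d9; linarith) k
    have e3 : (0 : ℝ) < (k.factorial : ℝ) := by exact_mod_cast Nat.factorial_pos k
    have e4 := e1.trans e2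
    rwa [div_le_iff₀ e3] at e4
  have hk2 : (k : ℝ) ≤ 2 ^ k := by exact_mod_cast (Nat.lt_two_pow_self (n := k)).le
  have hf : (0 : ℝ) < (k.factorial : ℝ) := by exact_mod_cast Nat.factorial_pos k
  have hf1 : ((k + 1).factorial : ℝ) = ((k : ℝ) + 1) * (k.factorial : ℝ) := by
    rw [Nat.factorial_succ]; push_cast; ring
  calc (m.choose (k + 1) : ℝ) * ((n.choose k : ℝ) * ((k : ℝ) / n) ^ (2 * (k + 1)))
      ≤ ((1 / 100 * n : ℝ) ^ (k + 1) / ((k + 1).factorial : ℝ)) *
        (((n : ℝ) ^ k / (k.factorial : ℝ)) * ((k : ℝ) / n) ^ (2 * (k + 1))) := by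
        gcongr
    _ = (1 / 100) ^ (k + 1) * (((k : ℝ) ^ k) ^ 2 / (k.factorial : ℝ) ^ 2) *
        ((k : ℝ) ^ 2 / ((k : ℝ) + 1)) * (1 / n) := by
        rw [hf1, div_pow, mul_pow (1 / 100 : ℝ) (n : ℝ),
          show (n : ℝ) ^ (2 * (k + 1)) = ((n : ℝ) ^ k) ^ 2 * (n : ℝ) ^ 2 by ring,
          show (k : ℝ) ^ (2 * (k + 1)) = ((k : ℝ) ^ k) ^ 2 * (k : ℝ) ^ 2 by ring,
          pow_succ (n : ℝ) k]
        field_simp
    _ ≤ (1 / 100) ^ (k + 1) * ((3 ^ k * (k.factorial : ℝ)) ^ 2 / (k.factorial : ℝ) ^ 2) *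
        (2 ^ k) * (1 / n) := by
        gcongr
        rw [div_le_iff₀ (by positivity)]
        have : (0 : ℝ) ≤ k := Nat.cast_nonneg k
        nlinarith
    _ = (1 / 100) * (18 / 100) ^ k * (1 / n) := by
        rw [mul_pow, mul_div_assoc, div_self (by positivity), mul_one, pow_succ]
        have : (18 / 100 : ℝ) ^ k = (1 / 100) ^ k * ((3 ^ k) ^ 2 * 2 ^ k) := by
          rw [← pow_mul, mul_comm k 2, pow_mul, ← mul_pow, ← mul_pow]; norm_num
        rw [this]; ring
    _ ≤ (1 / 4) * (1 / 4) ^ k * (1 / n) := by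
        have e1 : (18 / 100 : ℝ) ^ k ≤ (1 / 4) ^ k :=
          pow_le_pow_left₀ (by norm_num) (by norm_num) k
        exact mul_le_mul_of_nonneg_right (mul_le_mul (by norm_num) e1 (by positivity)
          (by norm_num)) (by positivity)
    _ = _ := by rw [pow_succ]; ring

theorem E_bad_le (n m : ℕ) (hn : 0 < n) (hm : (m : ℝ) ≤ 1 / 100 * n) :
    E (fun F : Fin m → Cl n 2 => ind (BadH F)) ≤ 1 / 2 := by
  classical
  have hn' : (1 : ℝ) ≤ n := by exact_mod_cast hn
  have h1 : E (fun F : Fin m → Cl n 2 => ind (BadH F)) ≤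
      ∑ z : Finset (Fin m) × Finset (Fin n), (if z.2.card + 1 = z.1.card then
        ((z.2.card : ℝ) / n) ^ (2 * z.1.card) else 0) := by
    calc E (fun F : Fin m → Cl n 2 => ind (BadH F)) ≤
        E (fun F : Fin m → Cl n 2 => ∑ z : Finset (Fin m) × Finset (Fin n),
          ind (z.2.card + 1 = z.1.card ∧ ∀ j ∈ z.1, ∀ p, (F j p).1 ∈ z.2)) :=
          E_mono (fun F => ind_exists_le _)
      _ = ∑ z : Finset (Fin m) × Finset (Fin n), E (fun F : Fin m → Cl n 2 =>
          ind (z.2.card + 1 = z.1.card ∧ ∀ j ∈ z.1, ∀ p, (F j p).1 ∈ z.2)) := E_sum _ _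
      _ = _ := by
        refine Finset.sum_congr rfl (fun z _ => ?_)
        split_ifs with hz
        · rw [← E_bad_pair hn z.1 z.2]
          exact E_congr (fun F => ind_congr ⟨fun h => h.2, fun h => ⟨hz, h⟩⟩)
        · rw [E_congr (fun F => ind_false (fun h => hz h.1)), E_zero]
  refine h1.trans ?_
  rw [Fintype.sum_prod_type]
  have h2 : ∀ S : Finset (Fin m), (∑ V : Finset (Fin n), (if V.card + 1 = S.card then
        ((V.card : ℝ) / n) ^ (2 * S.card) else 0)) =
      (fun s : ℕ => if s = 0 then 0 else (n.choose (s - 1) : ℝ) *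
        (((s - 1 : ℕ) : ℝ) / n) ^ (2 * s)) S.card := by
    intro S
    simp only
    rw [← Finset.powerset_univ, Finset.sum_powerset_apply_card
      (fun v : ℕ => if v + 1 = S.card then ((v : ℝ) / n) ^ (2 * S.card) else 0)]
    simp only [Finset.card_univ, Fintype.card_fin, nsmul_eq_mul, mul_ite, mul_zero]
    split_ifs with hS
    · rw [hS]; simp
    · obtain ⟨k, hk⟩ := Nat.exists_eq_succ_of_ne_zero hS
      rw [hk, Nat.succ_eq_add_one, Nat.add_sub_cancel]
      simp only [Nat.add_right_cancel_iff]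
      rw [Finset.sum_ite_eq']
      split_ifs with hk2
      · rfl
      · rw [Nat.choose_eq_zero_of_lt (by
          rw [Finset.mem_range] at hk2; omega)]
        simp
  rw [Finset.sum_congr rfl (fun S _ => h2 S), ← Finset.powerset_univ,
    Finset.sum_powerset_apply_card (fun s : ℕ => if s = 0 then 0 else (n.choose (s - 1) : ℝ) *
        (((s - 1 : ℕ) : ℝ) / n) ^ (2 * s))]
  simp only [Finset.card_univ, Fintype.card_fin, nsmul_eq_mul]
  rw [Finset.sum_range_succ']
  simp only [if_true, mul_zero, add_zero, Nat.add_eq_zero_iff, one_ne_zero, and_false, if_false,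
    Nat.add_sub_cancel]
  calc ∑ k ∈ range m, (m.choose (k + 1) : ℝ) * ((n.choose k : ℝ) * ((k : ℝ) / n) ^ (2 * (k + 1)))
      ≤ ∑ k ∈ range m, (1 / 4 : ℝ) ^ (k + 1) * (1 / n) :=
        Finset.sum_le_sum (fun k _ => term_le n m k hn hm)
    _ = (1 / n) * (1 / 4) * ∑ k ∈ range m, (1 / 4 : ℝ) ^ k := by
        rw [Finset.mul_sum]
        refine Finset.sum_congr rfl (fun k _ => ?_)
        rw [pow_succ]; ring
    _ ≤ 1 * (1 / 4) * (4 / 3) := by
        have e1 : (1 : ℝ) / n ≤ 1 := by rw [div_le_one (by linarith)]; exact hn'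
        have e2 : ∑ k ∈ range m, (1 / 4 : ℝ) ^ k ≤ 4 / 3 := by
          rw [geom_sum_eq (by norm_num)]
          have : (0 : ℝ) ≤ (1 / 4) ^ m := by positivity
          rw [div_le_iff_of_neg (by norm_num)]
          linarith
        gcongr
    _ ≤ 1 / 2 := by norm_num

theorem pos : S_POS := by
  refine ⟨1 / 100, by norm_num, 1, fun n m hn hm => ?_⟩
  have hn0 : 0 < n := by omega
  have : NeZero n := ⟨hn0.ne'⟩
  have hmn : m ≤ n := by
    have h1 : (0 : ℝ) ≤ n := Nat.cast_nonneg n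
    have : (m : ℝ) ≤ n := by linarith
    exact_mod_cast this
  have h1 := E_bad_le n m hn0 hm
  have h2 : E (fun F : Fin m → Cl n 2 => ind (¬ BadH F)) ≤ ps n 2 m :=
    E_mono (fun F => ind_mono (sat_of_not_bad hmn F))
  have h3 : E (fun F : Fin m → Cl n 2 => ind (¬ BadH F)) =
      1 - E (fun F : Fin m → Cl n 2 => ind (BadH F)) := by
    rw [E_congr (fun F => ind_not (BadH F)), E_sub, E_const]
  linarith

end Pool.Agent.W108.TP
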