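import Pool.Agent.W840.TP.Defs
import Pool.Agent.H999R2.KSat.IN
import Pool.Agent.H999R2.KSat.SM

/-!
# Superadditivity of the mixed satisfiability probability (task TP-6)

Version with 2-clauses and 3-clauses of the starting file `Pool.Agent.H999R2.KSat.SM` (helper999 et al.).
-/

set_option autoImplicit false

namespace Pool.Agent.W108.TP
open Finset Filter Pool.Agent.H999R2.KSat Pool.Agent.W840.TP

/-- clauses of the two blocks acting on a set `R` of assignments of all variables -/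
noncomputable def TT {N1 N2 : ℕ} (k i j : ℕ) (R : Set (Asg (N1 + N2))) : ℝ :=
  E (fun G1 : Fin i → Cl N1 k => E (fun G2 : Fin j → Cl N2 k =>
    ind (R ∩ {a | ∀ u, sc a (inl N1 N2 (G1 u))} ∩ {a | ∀ u, sc a (inr N1 N2 (G2 u))}).Nonempty))

theorem TT_zero {N1 N2 : ℕ} (k : ℕ) (R : Set (Asg (N1 + N2))) :
    TT (N1 := N1) (N2 := N2) k 0 0 R = ind R.Nonempty := by
  unfold TT
  have h : ∀ (G1 : Fin 0 → Cl N1 k) (G2 : Fin 0 → Cl N2 k),
      ind (R ∩ {a | ∀ u, sc a (inl N1 N2 (G1 u))} ∩ {a | ∀ u, sc a (inr N1 N2 (G2 u))}).Nonempty =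
      ind R.Nonempty := by
    intro G1 G2
    congr 2
    ext a
    simp
  rw [E_congr (fun G1 => E_congr (fun G2 => h G1 G2)), E_const, E_const]

theorem TT_left {N1 N2 : ℕ} (k i j : ℕ) (R : Set (Asg (N1 + N2))) :
    TT (N1 := N1) (N2 := N2) k (i + 1) j R =
      E (fun c : Cl N1 k => TT (N1 := N1) (N2 := N2) k i j (R ∩ {a | sc a (inl N1 N2 c)})) := by
  unfold TT
  rw [E_cons]
  refine E_congr fun c => E_congr fun G1 => E_congr fun G2 => ?_
  congr 2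
  ext a
  constructor
  · rintro ⟨⟨haR, h1⟩, h2⟩
    exact ⟨⟨⟨haR, by simpa using h1 0⟩, fun u => by simpa using h1 u.succ⟩, h2⟩
  · rintro ⟨⟨⟨haR, h0⟩, h1⟩, h2⟩
    refine ⟨⟨haR, fun u => ?_⟩, h2⟩
    refine Fin.cases ?_ (fun u => ?_) u
    · simpa using h0
    · simpa using h1 u

theorem TT_right {N1 N2 : ℕ} (k i j : ℕ) (R : Set (Asg (N1 + N2))) :
    TT (N1 := N1) (N2 := N2) k i (j + 1) R =
      E (fun c : Cl N2 k => TT (N1 := N1) (N2 := N2) k i j (R ∩ {a | sc a (inr N1 N2 c)})) := by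
  unfold TT
  rw [E_congr (fun G1 : Fin i → Cl N1 k => E_cons (fun G2 : Fin (j + 1) → Cl N2 k =>
    ind (R ∩ {a | ∀ u, sc a (inl N1 N2 (G1 u))} ∩ {a | ∀ u, sc a (inr N1 N2 (G2 u))}).Nonempty)),
    E_comm]
  refine E_congr fun c => E_congr fun G1 => E_congr fun G2 => ?_
  congr 2
  ext a
  constructor
  · rintro ⟨⟨haR, h1⟩, h2⟩
    exact ⟨⟨⟨haR, by simpa using h2 0⟩, h1⟩, fun u => by simpa using h2 u.succ⟩
  · rintro ⟨⟨⟨haR, h0⟩, h1⟩, h2⟩
    refine ⟨⟨haR, h1⟩, fun u => ?_⟩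
    refine Fin.cases ?_ (fun u => ?_) u
    · simpa using h0
    · simpa using h2 u

theorem sv_swap {n n' k k' m : ℕ} (R : Set (Asg n)) (f : Cl n' k' → Cl n k) :
    E (fun c : Cl n' k' => sv k m (R ∩ {a | sc a (f c)})) =
      E (fun F : Fin m → Cl n k => E (fun c : Cl n' k' =>
        ind (R ∩ Sol F ∩ {a | sc a (f c)}).Nonempty)) := by
  rw [← E_comm]
  refine E_congr fun c => ?_
  unfold sv
  refine E_congr fun F => ?_
  congr 2
  ext a
  constructor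
  · rintro ⟨⟨h1, h2⟩, h3⟩; exact ⟨⟨h1, h3⟩, h2⟩
  · rintro ⟨⟨h1, h3⟩, h2⟩; exact ⟨⟨h1, h2⟩, h3⟩

/-- interpolation with a fixed set -/
theorem interpR {N1 N2 : ℕ} (k m : ℕ) (h1 : 0 < N1) (h2 : 0 < N2) :
    ∀ R : Set (Asg (N1 + N2)),
    ∑ ij ∈ antidiagonal m, (m.choose ij.1 : ℝ) * (((N1 : ℝ) / (N1 + N2)) ^ ij.1 *
      ((N2 : ℝ) / (N1 + N2)) ^ ij.2 * TT (N1 := N1) (N2 := N2) k ij.1 ij.2 R) ≤ sv k m R := by
  induction m with
  | zero =>
    intro R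
    simp only [Finset.Nat.antidiagonal_zero, sum_singleton, Nat.choose_self, Nat.cast_one, pow_zero,
      one_mul]
    rw [TT_zero, in_sv_zero]
  | succ m ih =>
    intro R
    set p : ℝ := (N1 : ℝ) / (N1 + N2) with hp
    set q : ℝ := (N2 : ℝ) / (N1 + N2) with hq
    have hp0 : 0 ≤ p := by positivity
    have hq0 : 0 ≤ q := by positivity
    have hpas := Finset.sum_antidiagonal_choose_succ_mul
      (fun i j => p ^ i * q ^ j * TT (N1 := N1) (N2 := N2) k i j R) m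
    rw [hpas]
    have hA : ∑ ij ∈ antidiagonal m, (m.choose ij.1 : ℝ) *
        (p ^ ij.1 * q ^ (ij.2 + 1) * TT (N1 := N1) (N2 := N2) k ij.1 (ij.2 + 1) R) =
        q * E (fun c : Cl N2 k => ∑ ij ∈ antidiagonal m, (m.choose ij.1 : ℝ) *
          (p ^ ij.1 * q ^ ij.2 *
            TT (N1 := N1) (N2 := N2) k ij.1 ij.2 (R ∩ {a | sc a (inr N1 N2 c)}))) := by
      rw [E_sum, Finset.mul_sum]
      refine Finset.sum_congr rfl fun ij _ => ?_
      rw [TT_right]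
      have : ∀ c : Cl N2 k, (m.choose ij.1 : ℝ) *
          (p ^ ij.1 * q ^ ij.2 *
            TT (N1 := N1) (N2 := N2) k ij.1 ij.2 (R ∩ {a | sc a (inr N1 N2 c)})) =
          ((m.choose ij.1 : ℝ) * (p ^ ij.1 * q ^ ij.2)) *
            TT (N1 := N1) (N2 := N2) k ij.1 ij.2 (R ∩ {a | sc a (inr N1 N2 c)}) := by
        intro c; ring
      rw [E_congr this, E_mul_left]
      ring
    have hB : ∑ ij ∈ antidiagonal m, (m.choose ij.2 : ℝ) *
        (p ^ (ij.1 + 1) * q ^ ij.2 * TT (N1 := N1) (N2 := N2) k (ij.1 + 1) ij.2 R) =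
        p * E (fun c : Cl N1 k => ∑ ij ∈ antidiagonal m, (m.choose ij.1 : ℝ) *
          (p ^ ij.1 * q ^ ij.2 *
            TT (N1 := N1) (N2 := N2) k ij.1 ij.2 (R ∩ {a | sc a (inl N1 N2 c)}))) := by
      rw [E_sum, Finset.mul_sum]
      refine Finset.sum_congr rfl fun ij hij => ?_
      rw [TT_left]
      have hch : m.choose ij.2 = m.choose ij.1 := by
        have := mem_antidiagonal.1 hij
        rw [← this]
        exact (Nat.choose_symm_add).symm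
      have : ∀ c : Cl N1 k, (m.choose ij.1 : ℝ) *
          (p ^ ij.1 * q ^ ij.2 *
            TT (N1 := N1) (N2 := N2) k ij.1 ij.2 (R ∩ {a | sc a (inl N1 N2 c)})) =
          ((m.choose ij.1 : ℝ) * (p ^ ij.1 * q ^ ij.2)) *
            TT (N1 := N1) (N2 := N2) k ij.1 ij.2 (R ∩ {a | sc a (inl N1 N2 c)}) := by
        intro c; ring
      rw [E_congr this, E_mul_left, hch]
      ring
    rw [hA, hB]
    have hA' := E_mono (fun c : Cl N2 k => ih (R ∩ {a | sc a (inr N1 N2 c)}))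
    have hB' := E_mono (fun c : Cl N1 k => ih (R ∩ {a | sc a (inl N1 N2 c)}))
    rw [sv_swap R (inr N1 N2)] at hA'
    rw [sv_swap R (inl N1 N2)] at hB'
    have hfin : sv k (m + 1) R =
        E (fun F : Fin m → Cl (N1 + N2) k => E (fun c : Cl (N1 + N2) k =>
          ind (R ∩ Sol F ∩ {a | sc a c}).Nonempty)) := by
      rw [in_sv_succ]
      exact sv_swap R id
    rw [hfin]
    refine (add_le_add (mul_le_mul_of_nonneg_left hA' hq0)
      (mul_le_mul_of_nonneg_left hB' hp0)).trans ?_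
    rw [← E_mul_left, ← E_mul_left, ← E_add]
    refine E_mono fun F => ?_
    have := in_step k h1 h2 (R ∩ Sol F)
    linarith

theorem pm_nonneg (n m2 m3 : ℕ) : 0 ≤ pm n m2 m3 :=
  E_nonneg fun _ => E_nonneg fun _ => ind_nonneg _

theorem pm_eq (n m2 m3 : ℕ) : pm n m2 m3 = E (fun F2 : Fin m2 → Cl n 2 => sv 3 m3 (Sol F2)) := rfl

theorem pm_eq' (n m2 m3 : ℕ) : pm n m2 m3 = E (fun F3 : Fin m3 → Cl n 3 => sv 2 m2 (Sol F3)) := by
  unfold pm sv
  rw [E_comm]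
  refine E_congr fun F3 => E_congr fun F2 => ?_
  rw [Set.inter_comm]

theorem pm_zero (n : ℕ) : pm n 0 0 = 1 := by
  unfold pm
  have h : ∀ (F2 : Fin 0 → Cl n 2) (F3 : Fin 0 → Cl n 3), ind (Sol F2 ∩ Sol F3).Nonempty = 1 := by
    intro F2 F3
    apply ind_true
    exact ⟨fun _ => true, fun j => j.elim0, fun j => j.elim0⟩
  rw [E_congr (fun F2 => E_congr (fun F3 => h F2 F3)), E_const, E_const]

theorem sv_succ_le {n : ℕ} (k m : ℕ) (hn : 0 < n) (A : Set (Asg n)) : sv k (m + 1) A ≤ sv k m A := by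
  have : Nonempty (Cl n k) := ⟨fun _ => (⟨0, hn⟩, true)⟩
  rw [in_sv_succ]
  refine E_le_const fun c => ?_
  unfold sv
  refine E_mono fun F => ind_mono ?_
  rintro ⟨a, ⟨h1, -⟩, h2⟩
  exact ⟨a, h1, h2⟩

theorem sv_anti {n : ℕ} (k : ℕ) (hn : 0 < n) (A : Set (Asg n)) {m m' : ℕ} (h : m ≤ m') :
    sv k m' A ≤ sv k m A :=
  antitone_nat_of_succ_le (f := fun m => sv k m A) (fun m => sv_succ_le k m hn A) h

theorem pm_anti (n : ℕ) (hn : 0 < n) {m2 m2' m3 m3' : ℕ} (h2 : m2 ≤ m2') (h3 : m3 ≤ m3') :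
    pm n m2' m3' ≤ pm n m2 m3 := by
  calc pm n m2' m3' ≤ pm n m2' m3 := by
        rw [pm_eq, pm_eq]
        exact E_mono fun F => sv_anti 3 hn _ h3
    _ ≤ pm n m2 m3 := by
        rw [pm_eq', pm_eq']
        exact E_mono fun F => sv_anti 2 hn _ h2

/-- the mixed interpolation inequality -/
theorem interp_pm (N1 N2 m2 m3 : ℕ) (h1 : 0 < N1) (h2 : 0 < N2) :
    ∑ i ∈ range (m2 + 1), ∑ i' ∈ range (m3 + 1),
      ((m2.choose i : ℝ) * ((N1 : ℝ) / (N1 + N2)) ^ i * ((N2 : ℝ) / (N1 + N2)) ^ (m2 - i)) *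
      ((m3.choose i' : ℝ) * ((N1 : ℝ) / (N1 + N2)) ^ i' * ((N2 : ℝ) / (N1 + N2)) ^ (m3 - i')) *
      (pm N1 i i' * pm N2 (m2 - i) (m3 - i')) ≤ pm (N1 + N2) m2 m3 := by
  have hp0 : 0 ≤ (N1 : ℝ) / (N1 + N2) := by positivity
  have hq0 : 0 ≤ (N2 : ℝ) / (N1 + N2) := by positivity
  -- first the 2-clauses
  have s1 : ∑ i ∈ range (m2 + 1),
      ((m2.choose i : ℝ) * ((N1 : ℝ) / (N1 + N2)) ^ i * ((N2 : ℝ) / (N1 + N2)) ^ (m2 - i)) *
      E (fun F3 : Fin m3 → Cl (N1 + N2) 3 =>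
        TT (N1 := N1) (N2 := N2) 2 i (m2 - i) (Sol F3)) ≤ pm (N1 + N2) m2 m3 := by
    rw [pm_eq']
    refine le_trans (le_of_eq ?_) (E_mono (fun F3 : Fin m3 → Cl (N1 + N2) 3 =>
      interpR (N1 := N1) (N2 := N2) 2 m2 h1 h2 (Sol F3)))
    rw [E_sum, Finset.Nat.sum_antidiagonal_eq_sum_range_succ_mk]
    refine Finset.sum_congr rfl fun i _ => ?_
    rw [← E_mul_left]
    refine E_congr fun F3 => ?_
    ring
  refine le_trans (Finset.sum_le_sum fun i _ => ?_) s1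
  have s2 : ∀ (j : ℕ) (G1 : Fin i → Cl N1 2) (G2 : Fin j → Cl N2 2),
      E (fun F3 : Fin m3 → Cl (N1 + N2) 3 =>
        ind (Sol F3 ∩ {a | ∀ u, sc a (inl N1 N2 (G1 u))} ∩
          {a | ∀ u, sc a (inr N1 N2 (G2 u))}).Nonempty) = sv 3 m3 (rect (Sol G1) (Sol G2)) := by
    intro j G1 G2
    unfold sv
    refine E_congr fun F3 => ?_
    congr 2
    ext a
    constructor
    · rintro ⟨⟨h1, h2⟩, h3⟩; exact ⟨⟨h2, h3⟩, h1⟩
    · rintro ⟨⟨h2, h3⟩, h1⟩; exact ⟨⟨h1, h2⟩, h3⟩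
  have s3 : E (fun F3 : Fin m3 → Cl (N1 + N2) 3 =>
        TT (N1 := N1) (N2 := N2) 2 i (m2 - i) (Sol F3)) =
      E (fun G1 : Fin i → Cl N1 2 => E (fun G2 : Fin (m2 - i) → Cl N2 2 =>
        sv 3 m3 (rect (Sol G1) (Sol G2)))) := by
    unfold TT
    rw [E_comm]
    refine E_congr fun G1 => ?_
    rw [E_comm]
    exact E_congr fun G2 => s2 _ G1 G2
  rw [s3]
  have s4 : ∑ i' ∈ range (m3 + 1),
      ((m3.choose i' : ℝ) * ((N1 : ℝ) / (N1 + N2)) ^ i' * ((N2 : ℝ) / (N1 + N2)) ^ (m3 - i')) *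
      (pm N1 i i' * pm N2 (m2 - i) (m3 - i')) ≤
      E (fun G1 : Fin i → Cl N1 2 => E (fun G2 : Fin (m2 - i) → Cl N2 2 =>
        sv 3 m3 (rect (Sol G1) (Sol G2)))) := by
    refine le_trans (le_of_eq ?_) (E_mono fun G1 => E_mono fun G2 =>
      interp N1 N2 3 m3 h1 h2 (by norm_num) (Sol G1) (Sol G2))
    have e1 : ∀ G1 : Fin i → Cl N1 2, E (fun G2 : Fin (m2 - i) → Cl N2 2 =>
        ∑ j ∈ range (m3 + 1), (m3.choose j : ℝ) * ((N1 : ℝ) / (N1 + N2)) ^ j *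
          ((N2 : ℝ) / (N1 + N2)) ^ (m3 - j) * (sv 3 j (Sol G1) * sv 3 (m3 - j) (Sol G2))) =
        ∑ j ∈ range (m3 + 1), ((m3.choose j : ℝ) * ((N1 : ℝ) / (N1 + N2)) ^ j *
          ((N2 : ℝ) / (N1 + N2)) ^ (m3 - j)) * pm N2 (m2 - i) (m3 - j) * sv 3 j (Sol G1) := by
      intro G1
      rw [E_sum]
      refine Finset.sum_congr rfl fun j _ => ?_
      have e2 : ∀ G2 : Fin (m2 - i) → Cl N2 2, (m3.choose j : ℝ) * ((N1 : ℝ) / (N1 + N2)) ^ j *
          ((N2 : ℝ) / (N1 + N2)) ^ (m3 - j) * (sv 3 j (Sol G1) * sv 3 (m3 - j) (Sol G2)) =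
          ((m3.choose j : ℝ) * ((N1 : ℝ) / (N1 + N2)) ^ j *
          ((N2 : ℝ) / (N1 + N2)) ^ (m3 - j) * sv 3 j (Sol G1)) * sv 3 (m3 - j) (Sol G2) := by
        intro G2; ring
      rw [E_congr e2, E_mul_left, pm_eq N2]
      ring
    rw [E_congr e1, E_sum]
    refine Finset.sum_congr rfl fun j _ => ?_
    rw [E_mul_left, ← pm_eq]
    ring
  calc ∑ i' ∈ range (m3 + 1), _ = ((m2.choose i : ℝ) * ((N1 : ℝ) / (N1 + N2)) ^ i *
        ((N2 : ℝ) / (N1 + N2)) ^ (m2 - i)) * ∑ i' ∈ range (m3 + 1),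
      ((m3.choose i' : ℝ) * ((N1 : ℝ) / (N1 + N2)) ^ i' * ((N2 : ℝ) / (N1 + N2)) ^ (m3 - i')) *
      (pm N1 i i' * pm N2 (m2 - i) (m3 - i')) := by
        rw [Finset.mul_sum]
        refine Finset.sum_congr rfl fun j _ => ?_
        ring
    _ ≤ _ := mul_le_mul_of_nonneg_left s4 (by positivity)

theorem sup1 : S_SUP1 := by
  intro n m2 m3 hn
  have h := interp_pm n 1 m2 m3 hn one_pos
  refine le_trans ?_ h
  have hnn : ∀ i ∈ range (m2 + 1), ∀ i' ∈ range (m3 + 1), 0 ≤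
      ((m2.choose i : ℝ) * ((n : ℝ) / (n + (1 : ℕ))) ^ i * (((1 : ℕ) : ℝ) / (n + (1 : ℕ))) ^ (m2 - i)) *
      ((m3.choose i' : ℝ) * ((n : ℝ) / (n + (1 : ℕ))) ^ i' *
        (((1 : ℕ) : ℝ) / (n + (1 : ℕ))) ^ (m3 - i')) *
      (pm n i i' * pm 1 (m2 - i) (m3 - i')) := by
    intro i _ i' _
    have := pm_nonneg n i i'
    have := pm_nonneg 1 (m2 - i) (m3 - i')
    positivity
  refine le_trans ?_ (Finset.single_le_sum (fun i hi => Finset.sum_nonneg (hnn i hi))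
    (Finset.self_mem_range_succ m2))
  refine le_trans ?_ (Finset.single_le_sum (hnn m2 (Finset.self_mem_range_succ m2))
    (Finset.self_mem_range_succ m3))
  simp only [Nat.choose_self, Nat.sub_self, pow_zero, pm_zero, Nat.cast_one, one_mul, mul_one]
  rw [pow_add]

theorem bad_weight (m a b : ℕ) (p d : ℝ) (hp0 : 0 ≤ p) (hp1 : 0 ≤ 1 - p) (hd : 0 ≤ d)
    (hdm : 8 * (m : ℝ) ≤ d ^ 2) (ha : m * p + d ≤ a) (hb : m * (1 - p) + d ≤ b) :
    ∑ j ∈ range (m + 1), ((m.choose j : ℝ) * p ^ j * (1 - p) ^ (m - j)) *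
      (if j ≤ a ∧ m - j ≤ b then 0 else 1) ≤ 1 / 8 := by
  set w : ℕ → ℝ := fun j => (m.choose j : ℝ) * p ^ j * (1 - p) ^ (m - j) with hw
  have hw0 : ∀ j, 0 ≤ w j := fun j => by simp only [hw]; positivity
  have hm0 : (0 : ℝ) ≤ m := Nat.cast_nonneg m
  rcases Nat.eq_zero_or_pos m with hm | hm
  · subst hm
    simp
  · have hm' : (0 : ℝ) < m := by exact_mod_cast hm
    have hd2 : 0 < d ^ 2 := by linarith
    have hvar : ∑ j ∈ range (m + 1), w j * ((j : ℝ) - m * p) ^ 2 ≤ m := by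
      have := sm_variance m p
      simp only [hw]
      rw [this]
      have : p * (1 - p) ≤ 1 := by nlinarith
      calc (m : ℝ) * p * (1 - p) = m * (p * (1 - p)) := by ring
        _ ≤ m * 1 := mul_le_mul_of_nonneg_left this hm0
        _ = m := mul_one _
    have key : ∀ j ∈ range (m + 1), w j * (if j ≤ a ∧ m - j ≤ b then 0 else 1) ≤
        (w j * ((j : ℝ) - m * p) ^ 2) * (1 / d ^ 2) := by
      intro j hj
      have hjm : j ≤ m := by
        have := Finset.mem_range.mp hj; omega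
      split_ifs with hg
      · rw [mul_zero]
        exact mul_nonneg (mul_nonneg (hw0 j) (sq_nonneg _)) (by positivity)
      · have hdd : d ^ 2 ≤ ((j : ℝ) - m * p) ^ 2 := by
          rcases not_and_or.mp hg with h5 | h5
          · have h6 : (a : ℝ) < j := by exact_mod_cast not_le.mp h5
            have : d ≤ (j : ℝ) - m * p := by linarith
            exact pow_le_pow_left₀ hd this 2
          · have h6 : (b : ℝ) < ((m - j : ℕ) : ℝ) := by exact_mod_cast not_le.mp h5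
            rw [Nat.cast_sub hjm] at h6
            have : d ≤ m * p - (j : ℝ) := by linarith
            have := pow_le_pow_left₀ hd this 2
            calc d ^ 2 ≤ (m * p - (j : ℝ)) ^ 2 := this
              _ = _ := by ring
        rw [mul_one, mul_one_div, le_div_iff₀ hd2]
        exact mul_le_mul_of_nonneg_left hdd (hw0 j)
    refine (Finset.sum_le_sum key).trans ?_
    rw [← Finset.sum_mul, mul_one_div, div_le_iff₀ hd2]
    linarith

theorem weight_sum (m : ℕ) (p : ℝ) :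
    ∑ j ∈ range (m + 1), ((m.choose j : ℝ) * p ^ j * (1 - p) ^ (m - j)) = 1 := by
  have := add_pow p (1 - p) m
  rw [add_sub_cancel, one_pow] at this
  refine Eq.trans ?_ this.symm
  refine Finset.sum_congr rfl fun j _ => ?_
  ring

theorem sup2 : S_SUP2 := by
  intro N1 N2 m2 m3 a2 a3 b2 b3 d2 d3 h1 h2 hd2 hd3 hdm2 hdm3 ha2 hb2 ha3 hb3
  have h := interp_pm N1 N2 m2 m3 h1 h2
  refine le_trans ?_ h
  have hN1 : (0 : ℝ) < N1 := by exact_mod_cast h1
  have hN2 : (0 : ℝ) < N2 := by exact_mod_cast h2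
  set p : ℝ := (N1 : ℝ) / (N1 + N2) with hp
  have hq : (N2 : ℝ) / (N1 + N2) = 1 - p := by rw [hp]; field_simp; ring
  have hp0 : 0 ≤ p := by positivity
  have hp1 : 0 ≤ 1 - p := by rw [← hq]; positivity
  rw [hq]
  have hmp : ∀ m : ℕ, m * (N1 : ℝ) / (N1 + N2) = m * p := fun m => by rw [hp]; ring
  have hmq : ∀ m : ℕ, m * (N2 : ℝ) / (N1 + N2) = m * (1 - p) := fun m => by rw [← hq]; ring
  rw [hmp] at ha2 ha3
  rw [hmq] at hb2 hb3
  have B2 := bad_weight m2 a2 b2 p d2 hp0 hp1 hd2 hdm2 ha2 hb2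
  have B3 := bad_weight m3 a3 b3 p d3 hp0 hp1 hd3 hdm3 ha3 hb3
  have W2 := weight_sum m2 p
  have W3 := weight_sum m3 p
  set w2 : ℕ → ℝ := fun j => (m2.choose j : ℝ) * p ^ j * (1 - p) ^ (m2 - j) with hw2
  set w3 : ℕ → ℝ := fun j => (m3.choose j : ℝ) * p ^ j * (1 - p) ^ (m3 - j) with hw3
  have hw20 : ∀ j, 0 ≤ w2 j := fun j => by simp only [hw2]; positivity
  have hw30 : ∀ j, 0 ≤ w3 j := fun j => by simp only [hw3]; positivity
  set β2 : ℕ → ℝ := fun j => if j ≤ a2 ∧ m2 - j ≤ b2 then 0 else 1 with hβ2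
  set β3 : ℕ → ℝ := fun j => if j ≤ a3 ∧ m3 - j ≤ b3 then 0 else 1 with hβ3
  set P : ℝ := pm N1 a2 a3 * pm N2 b2 b3 with hP
  have hP0 : 0 ≤ P := mul_nonneg (pm_nonneg _ _ _) (pm_nonneg _ _ _)
  have key : ∀ i i' : ℕ, w2 i * w3 i' * P ≤ w2 i * w3 i' * (pm N1 i i' * pm N2 (m2 - i) (m3 - i')) +
      (w2 i * β2 i * w3 i' + w2 i * (w3 i' * β3 i')) * P := by
    intro i i'
    have hww : 0 ≤ w2 i * w3 i' := mul_nonneg (hw20 i) (hw30 i')
    have hQ : 0 ≤ pm N1 i i' * pm N2 (m2 - i) (m3 - i') :=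
      mul_nonneg (pm_nonneg _ _ _) (pm_nonneg _ _ _)
    have hPle : P ≤ (pm N1 i i' * pm N2 (m2 - i) (m3 - i')) + (β2 i + β3 i') * P := by
      by_cases g2 : i ≤ a2 ∧ m2 - i ≤ b2
      · by_cases g3 : i' ≤ a3 ∧ m3 - i' ≤ b3
        · have e2 : β2 i = 0 := by simp only [hβ2]; exact if_pos g2
          have e3 : β3 i' = 0 := by simp only [hβ3]; exact if_pos g3
          rw [e2, e3]
          have ha := pm_anti N1 h1 g2.1 g3.1
          have hb := pm_anti N2 h2 g2.2 g3.2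
          have : P ≤ pm N1 i i' * pm N2 (m2 - i) (m3 - i') :=
            mul_le_mul ha hb (pm_nonneg _ _ _) (pm_nonneg _ _ _)
          linarith
        · have e2 : β2 i = 0 := by simp only [hβ2]; exact if_pos g2
          have e3 : β3 i' = 1 := by simp only [hβ3]; exact if_neg g3
          rw [e2, e3]; linarith
      · have e2 : β2 i = 1 := by simp only [hβ2]; exact if_neg g2
        have e3 : 0 ≤ β3 i' := by simp only [hβ3]; split_ifs <;> norm_num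
        rw [e2]
        nlinarith
    calc w2 i * w3 i' * P ≤ w2 i * w3 i' *
          ((pm N1 i i' * pm N2 (m2 - i) (m3 - i')) + (β2 i + β3 i') * P) :=
          mul_le_mul_of_nonneg_left hPle hww
      _ = _ := by ring
  have hS : ∑ i ∈ range (m2 + 1), ∑ i' ∈ range (m3 + 1), w2 i * w3 i' * P ≤
      ∑ i ∈ range (m2 + 1), ∑ i' ∈ range (m3 + 1),
        (w2 i * w3 i' * (pm N1 i i' * pm N2 (m2 - i) (m3 - i')) +
      (w2 i * β2 i * w3 i' + w2 i * (w3 i' * β3 i')) * P) :=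
    Finset.sum_le_sum fun i _ => Finset.sum_le_sum fun i' _ => key i i'
  have hL : ∑ i ∈ range (m2 + 1), ∑ i' ∈ range (m3 + 1), w2 i * w3 i' * P = P := by
    simp only [← Finset.sum_mul]
    rw [← Finset.sum_mul_sum, W2, W3]
    ring
  have hR : ∑ i ∈ range (m2 + 1), ∑ i' ∈ range (m3 + 1),
        (w2 i * w3 i' * (pm N1 i i' * pm N2 (m2 - i) (m3 - i')) +
      (w2 i * β2 i * w3 i' + w2 i * (w3 i' * β3 i')) * P) =
      (∑ i ∈ range (m2 + 1), ∑ i' ∈ range (m3 + 1),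
        w2 i * w3 i' * (pm N1 i i' * pm N2 (m2 - i) (m3 - i'))) +
      ((∑ i ∈ range (m2 + 1), w2 i * β2 i) * (∑ i' ∈ range (m3 + 1), w3 i') +
        (∑ i ∈ range (m2 + 1), w2 i) * (∑ i' ∈ range (m3 + 1), w3 i' * β3 i')) * P := by
    rw [Finset.sum_mul_sum, Finset.sum_mul_sum, ← Finset.sum_add_distrib, Finset.sum_mul,
      ← Finset.sum_add_distrib]
    refine Finset.sum_congr rfl fun i _ => ?_
    rw [← Finset.sum_add_distrib, Finset.sum_mul, ← Finset.sum_add_distrib]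
  rw [hL, hR, W2, W3] at hS
  have h5 : ((∑ i ∈ range (m2 + 1), w2 i * β2 i) * 1 +
      1 * (∑ i' ∈ range (m3 + 1), w3 i' * β3 i')) * P ≤ (1 / 8 + 1 / 8) * P := by
    apply mul_le_mul_of_nonneg_right _ hP0
    rw [mul_one, one_mul]
    exact add_le_add B2 B3
  have h6 : 1 / 2 * pm N1 a2 a3 * pm N2 b2 b3 = 1 / 2 * P := by rw [hP]; ring
  rw [h6]
  linarith

end Pool.Agent.W108.TP
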