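import Pool.Agent.W840.TP.Defs
import Pool.Agent.H999R2.KSat.TR
import Pool.Agent.H999R2.KSat.TL1
import Pool.Agent.H999R2.KSat.TL2
import Pool.Agent.H986R2.TwoP.Crit

/-!
# Comparison of the model of the problem with independent literals (tasks TP-9, TP-10)
-/

set_option autoImplicit false

namespace Pool.Agent.W108.TP
open Finset Filter Pool.Agent.H999R2.KSat Pool.Agent.W840.TP

/-- indicator of the formulas all of whose clauses have distinct variables -/
noncomputable def JJ {n k m : ℕ} (G : Fin m → Cl n k) : ℝ :=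
  ind (∀ j, Function.Injective (fun p => (G j p).1))

theorem JJ_nonneg {n k m : ℕ} (G : Fin m → Cl n k) : 0 ≤ JJ G := ind_nonneg _
theorem JJ_le_one {n k m : ℕ} (G : Fin m → Cl n k) : JJ G ≤ 1 := ind_le_one _

theorem card_filter_ind {α : Type} [Fintype α] (P : α → Prop) [DecidablePred P] :
    ((univ.filter P).card : ℝ) = ∑ x, ind (P x) := by
  rw [Finset.card_filter]
  push_cast
  refine Finset.sum_congr rfl fun x _ => ?_
  split_ifs with h
  · rw [ind_true h]
  · rw [ind_false h]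

theorem sum_JJ (n k m : ℕ) : ∑ G : Fin m → Cl n k, JJ G = dcount n k m := by
  classical
  unfold dcount
  rw [card_filter_ind]
  rfl

/-- `C` has support of size `k` -/
def szP {n m : ℕ} (k : ℕ) (F : Fin m → Fin n → Option Bool) : Prop :=
  ∀ j, (univ.filter (fun i => F j i ≠ none)).card = k

theorem sumV {n m : ℕ} (k : ℕ) (g : (Fin m → Fin n → Option Bool) → ℝ) :
    (∑ F, ind (szP k F) * g F) * ((k.factorial : ℝ)) ^ m =
      ∑ G : Fin m → Cl n k, JJ G * g (fun j => trPhi (G j)) := by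
  classical
  have h1 : ∀ F0 : Fin m → Fin n → Option Bool, ind (szP k F0) * (k.factorial : ℝ) ^ m =
      ∑ G : Fin m → Cl n k, JJ G * ind ((fun j => trPhi (G j)) = F0) := by
    intro F0
    have h := tr_gen n k m (fun F => F = F0)
    have h' := congrArg (fun x : ℕ => (x : ℝ)) h
    push_cast at h'
    rw [card_filter_ind, card_filter_ind] at h'
    have e1 : ∑ F : Fin m → Fin n → Option Bool,
        ind ((∀ j, (univ.filter (fun i => F j i ≠ none)).card = k) ∧ F = F0) =
        ind (szP k F0) := by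
      rw [Finset.sum_eq_single F0]
      · exact ind_congr ⟨fun h => h.1, fun h => ⟨h, rfl⟩⟩
      · intro F _ hF
        exact ind_false (fun h => hF h.2)
      · intro h; exact absurd (Finset.mem_univ _) h
    rw [e1] at h'
    rw [h']
    refine Finset.sum_congr rfl fun G _ => ?_
    rw [ind_and]
    rfl
  calc (∑ F, ind (szP k F) * g F) * ((k.factorial : ℝ)) ^ m
      = ∑ F, g F * (ind (szP k F) * (k.factorial : ℝ) ^ m) := by
        rw [Finset.sum_mul]
        refine Finset.sum_congr rfl fun F _ => ?_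
        ring
    _ = ∑ F, g F * ∑ G : Fin m → Cl n k, JJ G * ind ((fun j => trPhi (G j)) = F) := by
        refine Finset.sum_congr rfl fun F _ => ?_
        rw [h1]
    _ = ∑ G : Fin m → Cl n k, ∑ F, g F * (JJ G * ind ((fun j => trPhi (G j)) = F)) := by
        simp only [Finset.mul_sum]
        exact Finset.sum_comm
    _ = _ := by
        refine Finset.sum_congr rfl fun G _ => ?_
        rw [Finset.sum_eq_single (fun j => trPhi (G j))]
        · rw [ind_true rfl]; ring
        · intro F _ hF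
          rw [ind_false (fun h => hF h.symm)]; ring
        · intro h; exact absurd (Finset.mem_univ _) h

noncomputable instance instClause (n k : ℕ) : Fintype (Clause n k) := by
  unfold Clause; infer_instance

theorem sumC {n m : ℕ} (k : ℕ) (g : (Fin m → Fin n → Option Bool) → ℝ) :
    ∑ F : Fin m → Clause n k, g (fun j => (F j).1) = ∑ F, ind (szP k F) * g F := by
  classical
  have h1 : ∑ F : Fin m → Fin n → Option Bool, ind (szP k F) * g F =
      ∑ F ∈ univ.filter (fun F : Fin m → Fin n → Option Bool => szP k F), g F := by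
    rw [Finset.sum_filter]
    refine Finset.sum_congr rfl fun F _ => ?_
    split_ifs with h
    · rw [ind_true h, one_mul]
    · rw [ind_false h, zero_mul]
  rw [h1, Finset.sum_subtype (p := fun F : Fin m → Fin n → Option Bool => szP k F) _ (by simp) g]
  refine Fintype.sum_equiv (e := (⟨fun F => ⟨fun j => (F j).1, fun j => (F j).2⟩,
    fun F => fun j => ⟨F.1 j, F.2 j⟩, fun F => rfl, fun F => rfl⟩ :
    (Fin m → Clause n k) ≃ {F : Fin m → Fin n → Option Bool // szP k F})) _ _ (fun F => rfl)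

/-- satisfiability of a pair -/
def satO {n m2 m3 : ℕ} (F2 : Fin m2 → Fin n → Option Bool) (F3 : Fin m3 → Fin n → Option Bool) :
    Prop := ∃ a : Fin n → Bool, (∀ j, ∃ i, F2 j i = some (a i)) ∧ ∀ j, ∃ i, F3 j i = some (a i)

theorem satO_tr {n m2 m3 : ℕ} (G2 : Fin m2 → Cl n 2) (G3 : Fin m3 → Cl n 3)
    (h2 : ∀ j, Function.Injective (fun p => (G2 j p).1))
    (h3 : ∀ j, Function.Injective (fun p => (G3 j p).1)) :
    satO (fun j => trPhi (G2 j)) (fun j => trPhi (G3 j)) ↔ (Sol G2 ∩ Sol G3).Nonempty := by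
  have key : ∀ {k m : ℕ} (G : Fin m → Cl n k) (_ : ∀ j, Function.Injective (fun p => (G j p).1))
      (a : Fin n → Bool), (∀ j, ∃ i, trPhi (G j) i = some (a i)) ↔ a ∈ Sol G := by
    intro k m G hG a
    constructor
    · intro ha j
      obtain ⟨i, hi⟩ := ha j
      by_cases hp : ∃ p, (G j p).1 = i
      · obtain ⟨p, rfl⟩ := hp
        refine ⟨p, ?_⟩
        rw [trPhi_apply (G j) (hG j) p] at hi
        exact (Option.some.inj hi).symm
      · push Not at hp
        rw [trPhi_none (G j) i hp] at hi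
        exact absurd hi (by simp)
    · intro ha j
      obtain ⟨p, hp⟩ := ha j
      exact ⟨(G j p).1, by rw [trPhi_apply (G j) (hG j) p, hp]⟩
  constructor
  · rintro ⟨a, ha2, ha3⟩
    exact ⟨a, (key G2 h2 a).1 ha2, (key G3 h3 a).1 ha3⟩
  · rintro ⟨a, ha2, ha3⟩
    exact ⟨a, (key G2 h2 a).2 ha2, (key G3 h3 a).2 ha3⟩

/-- the number of satisfiable pairs of ordered formulas with distinct variables -/
noncomputable def SS (n m2 m3 : ℕ) : ℝ :=
  ∑ G2 : Fin m2 → Cl n 2, JJ G2 * ∑ G3 : Fin m3 → Cl n 3, JJ G3 * ind (Sol G2 ∩ Sol G3).Nonempty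

theorem card_clause (n k m : ℕ) :
    (Fintype.card (Fin m → Clause n k) : ℝ) * (k.factorial : ℝ) ^ m = dcount n k m := by
  rw [← sum_JJ]
  have h := sumV (n := n) (m := m) k (fun _ => 1)
  simp only [mul_one] at h
  rw [← h]
  congr 1
  have h2 := sumC (n := n) (m := m) k (fun _ => 1)
  simp only [mul_one] at h2
  rw [← h2]
  simp

theorem satP_eq_E (n m2 m3 : ℕ) : satP n m2 m3 =
    E (fun F2 : Fin m2 → Clause n 2 => E (fun F3 : Fin m3 → Clause n 3 =>
      ind (∃ a : Fin n → Bool, (∀ j, Satisfies a (F2 j)) ∧ ∀ j, Satisfies a (F3 j)))) := by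
  classical
  rw [← E_prod (fun (F2 : Fin m2 → Clause n 2) (F3 : Fin m3 → Clause n 3) =>
      ind (∃ a : Fin n → Bool, (∀ j, Satisfies a (F2 j)) ∧ ∀ j, Satisfies a (F3 j)))]
  unfold satP E
  rw [Nat.card_eq_fintype_card, Nat.card_eq_fintype_card, Fintype.card_subtype, card_filter_ind]

theorem satP_eq (n m2 m3 : ℕ) : satP n m2 m3 = SS n m2 m3 / (dcount n 2 m2 * dcount n 3 m3) := by
  rw [satP_eq_E]
  unfold E
  rw [← Finset.sum_div, div_div]
  have hc2 : ((2 : ℕ).factorial : ℝ) ^ m2 ≠ 0 := by positivity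
  have hc3 : ((3 : ℕ).factorial : ℝ) ^ m3 ≠ 0 := by positivity
  rw [← card_clause, ← card_clause]
  have hnum : (∑ F2 : Fin m2 → Clause n 2, ∑ F3 : Fin m3 → Clause n 3,
      ind (∃ a : Fin n → Bool, (∀ j, Satisfies a (F2 j)) ∧ ∀ j, Satisfies a (F3 j))) *
      (((2 : ℕ).factorial : ℝ) ^ m2 * ((3 : ℕ).factorial : ℝ) ^ m3) = SS n m2 m3 := by
    have e1 : ∀ F2 : Fin m2 → Clause n 2, ∑ F3 : Fin m3 → Clause n 3,
        ind (∃ a : Fin n → Bool, (∀ j, Satisfies a (F2 j)) ∧ ∀ j, Satisfies a (F3 j)) =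
        ∑ F3 : Fin m3 → Fin n → Option Bool, ind (szP 3 F3) *
          ind (satO (fun j => (F2 j).1) F3) := fun F2 =>
      sumC (n := n) (m := m3) 3 (fun F3 => ind (satO (fun j => (F2 j).1) F3))
    have e2 : ∀ F2 : Fin m2 → Clause n 2, (∑ F3 : Fin m3 → Fin n → Option Bool, ind (szP 3 F3) *
          ind (satO (fun j => (F2 j).1) F3)) * ((3 : ℕ).factorial : ℝ) ^ m3 =
        ∑ G3 : Fin m3 → Cl n 3, JJ G3 *
          ind (satO (fun j => (F2 j).1) (fun j => trPhi (G3 j))) := fun F2 =>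
      sumV (n := n) (m := m3) 3 (fun F3 => ind (satO (fun j => (F2 j).1) F3))
    have e3 : (∑ F2 : Fin m2 → Clause n 2, ∑ F3 : Fin m3 → Clause n 3,
      ind (∃ a : Fin n → Bool, (∀ j, Satisfies a (F2 j)) ∧ ∀ j, Satisfies a (F3 j))) *
      ((3 : ℕ).factorial : ℝ) ^ m3 = ∑ F2 : Fin m2 → Clause n 2, ∑ G3 : Fin m3 → Cl n 3, JJ G3 *
          ind (satO (fun j => (F2 j).1) (fun j => trPhi (G3 j))) := by
      rw [Finset.sum_mul]
      refine Finset.sum_congr rfl fun F2 _ => ?_
      rw [e1, e2]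
    have e4 := sumC (n := n) (m := m2) 2 (fun F2 => ∑ G3 : Fin m3 → Cl n 3, JJ G3 *
          ind (satO F2 (fun j => trPhi (G3 j))))
    have e5 := sumV (n := n) (m := m2) 2 (fun F2 => ∑ G3 : Fin m3 → Cl n 3, JJ G3 *
          ind (satO F2 (fun j => trPhi (G3 j))))
    calc _ = ((∑ F2 : Fin m2 → Clause n 2, ∑ F3 : Fin m3 → Clause n 3,
          ind (∃ a : Fin n → Bool, (∀ j, Satisfies a (F2 j)) ∧ ∀ j, Satisfies a (F3 j))) *
          ((3 : ℕ).factorial : ℝ) ^ m3) * ((2 : ℕ).factorial : ℝ) ^ m2 := by ring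
      _ = _ := by
        rw [e3, e4, e5]
        unfold SS
        refine Finset.sum_congr rfl fun G2 _ => ?_
        by_cases h2 : ∀ j, Function.Injective (fun p => (G2 j p).1)
        · congr 1
          refine Finset.sum_congr rfl fun G3 _ => ?_
          by_cases h3 : ∀ j, Function.Injective (fun p => (G3 j p).1)
          · congr 1
            exact ind_congr (satO_tr G2 G3 h2 h3)
          · have : JJ G3 = 0 := ind_false h3
            rw [this, zero_mul, zero_mul]
        · have : JJ G2 = 0 := ind_false h2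
          rw [this, zero_mul, zero_mul]
  rw [← hnum]
  have e : (Fintype.card (Fin m2 → Clause n 2) : ℝ) * ((2 : ℕ).factorial : ℝ) ^ m2 *
      ((Fintype.card (Fin m3 → Clause n 3) : ℝ) * ((3 : ℕ).factorial : ℝ) ^ m3) =
      ((Fintype.card (Fin m3 → Clause n 3) : ℝ) * (Fintype.card (Fin m2 → Clause n 2) : ℝ)) *
      (((2 : ℕ).factorial : ℝ) ^ m2 * ((3 : ℕ).factorial : ℝ) ^ m3) := by ring
  rw [e, mul_div_mul_right _ _ (mul_ne_zero hc2 hc3)]

theorem pm_sum (n m2 m3 : ℕ) : pm n m2 m3 * (((2 * (n : ℝ)) ^ 2) ^ m2 * ((2 * (n : ℝ)) ^ 3) ^ m3) =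
    ∑ G2 : Fin m2 → Cl n 2, ∑ G3 : Fin m3 → Cl n 3, ind (Sol G2 ∩ Sol G3).Nonempty := by
  unfold pm E
  rw [← Finset.sum_div, div_div, tl2_card, tl2_card]
  by_cases h : ((2 * (n : ℝ)) ^ 2) ^ m2 * ((2 * (n : ℝ)) ^ 3) ^ m3 = 0
  · rw [h, mul_zero]
    rcases mul_eq_zero.mp h with h' | h'
    · have h0 : Fintype.card (Fin m2 → Cl n 2) = 0 := by
        have := tl2_card n 2 m2
        rw [h'] at this
        exact_mod_cast this
      have : IsEmpty (Fin m2 → Cl n 2) := Fintype.card_eq_zero_iff.mp h0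
      simp
    · have h0 : Fintype.card (Fin m3 → Cl n 3) = 0 := by
        have := tl2_card n 3 m3
        rw [h'] at this
        exact_mod_cast this
      have : IsEmpty (Fin m3 → Cl n 3) := Fintype.card_eq_zero_iff.mp h0
      simp
  · rw [mul_comm (((2 * (n : ℝ)) ^ 3) ^ m3), div_mul_cancel₀ _ h]

theorem SS_nonneg (n m2 m3 : ℕ) : 0 ≤ SS n m2 m3 :=
  Finset.sum_nonneg fun _ _ => mul_nonneg (JJ_nonneg _) (Finset.sum_nonneg fun _ _ =>
    mul_nonneg (JJ_nonneg _) (ind_nonneg _))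

theorem SS_le (n m2 m3 : ℕ) :
    SS n m2 m3 ≤ pm n m2 m3 * (((2 * (n : ℝ)) ^ 2) ^ m2 * ((2 * (n : ℝ)) ^ 3) ^ m3) := by
  rw [pm_sum]
  unfold SS
  refine Finset.sum_le_sum fun G2 _ => ?_
  have h0 : 0 ≤ ∑ G3 : Fin m3 → Cl n 3, JJ G3 * ind (Sol G2 ∩ Sol G3).Nonempty :=
    Finset.sum_nonneg fun _ _ => mul_nonneg (JJ_nonneg _) (ind_nonneg _)
  refine (mul_le_of_le_one_left h0 (JJ_le_one G2)).trans ?_
  refine Finset.sum_le_sum fun G3 _ => ?_
  exact mul_le_of_le_one_left (ind_nonneg _) (JJ_le_one G3)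

theorem dd_eq (n m2 m3 : ℕ) : (dcount n 2 m2 : ℝ) * dcount n 3 m3 =
    ∑ G2 : Fin m2 → Cl n 2, JJ G2 * ∑ G3 : Fin m3 → Cl n 3, JJ G3 := by
  rw [← sum_JJ, ← sum_JJ, Finset.sum_mul]

theorem dd_sub_SS (n m2 m3 : ℕ) : (dcount n 2 m2 : ℝ) * dcount n 3 m3 - SS n m2 m3 =
    ∑ G2 : Fin m2 → Cl n 2, JJ G2 * ∑ G3 : Fin m3 → Cl n 3,
      JJ G3 * (1 - ind (Sol G2 ∩ Sol G3).Nonempty) := by
  rw [dd_eq]
  unfold SS
  rw [← Finset.sum_sub_distrib]
  refine Finset.sum_congr rfl fun G2 _ => ?_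
  rw [← mul_sub, ← Finset.sum_sub_distrib]
  congr 1
  refine Finset.sum_congr rfl fun G3 _ => ?_
  ring

theorem dd_sub_le (n m2 m3 : ℕ) : (dcount n 2 m2 : ℝ) * dcount n 3 m3 - SS n m2 m3 ≤
    (1 - pm n m2 m3) * (((2 * (n : ℝ)) ^ 2) ^ m2 * ((2 * (n : ℝ)) ^ 3) ^ m3) := by
  have e1 : ((2 * (n : ℝ)) ^ 2) ^ m2 * ((2 * (n : ℝ)) ^ 3) ^ m3 =
      ∑ G2 : Fin m2 → Cl n 2, ∑ G3 : Fin m3 → Cl n 3, (1 : ℝ) := by
    rw [Finset.sum_const, Finset.sum_const, Finset.card_univ, Finset.card_univ, nsmul_eq_mul,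
      nsmul_eq_mul, mul_one, tl2_card, tl2_card]
  rw [sub_mul, one_mul, pm_sum, e1, ← Finset.sum_sub_distrib, dd_sub_SS]
  refine Finset.sum_le_sum fun G2 _ => ?_
  have h1 : ∀ G3 : Fin m3 → Cl n 3, 0 ≤ 1 - ind (Sol G2 ∩ Sol G3).Nonempty := fun G3 => by
    linarith [ind_le_one (Sol G2 ∩ Sol G3).Nonempty]
  have h0 : 0 ≤ ∑ G3 : Fin m3 → Cl n 3, JJ G3 * (1 - ind (Sol G2 ∩ Sol G3).Nonempty) :=
    Finset.sum_nonneg fun G3 _ => mul_nonneg (JJ_nonneg _) (h1 G3)
  refine (mul_le_of_le_one_left h0 (JJ_le_one G2)).trans ?_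
  rw [← Finset.sum_sub_distrib]
  refine Finset.sum_le_sum fun G3 _ => ?_
  exact mul_le_of_le_one_left (h1 G3) (JJ_le_one G3)

theorem SS_le_dd (n m2 m3 : ℕ) : SS n m2 m3 ≤ (dcount n 2 m2 : ℝ) * dcount n 3 m3 := by
  have h := dd_sub_SS n m2 m3
  have : 0 ≤ (dcount n 2 m2 : ℝ) * dcount n 3 m3 - SS n m2 m3 := by
    rw [h]
    refine Finset.sum_nonneg fun G2 _ => mul_nonneg (JJ_nonneg _) (Finset.sum_nonneg fun G3 _ =>
      mul_nonneg (JJ_nonneg _) ?_)
    linarith [ind_le_one (Sol G2 ∩ Sol G3).Nonempty]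
  linarith

theorem tr : S_TR := by
  intro Λ
  obtain ⟨c2, hc2, n2, h2⟩ := dcount_lower 2 Λ
  obtain ⟨c3, hc3, n3, h3⟩ := dcount_lower 3 Λ
  refine ⟨c2 * c3, by positivity, max (max n2 n3) 1, ?_⟩
  intro n m2 m3 hn hm2 hm3
  have hn2 : n2 ≤ n := le_trans (le_max_left _ _) (le_trans (le_max_left _ _) hn)
  have hn3 : n3 ≤ n := le_trans (le_max_right _ _) (le_trans (le_max_left _ _) hn)
  have hn1 : 1 ≤ n := le_trans (le_max_right _ _) hn
  have hnpos : (0 : ℝ) < n := by exact_mod_cast hn1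
  have hc : 0 < c2 * c3 := by positivity
  rw [satP_eq]
  have hX : (0 : ℝ) < ((2 * (n : ℝ)) ^ 2) ^ m2 * ((2 * (n : ℝ)) ^ 3) ^ m3 := by positivity
  have h1 : c2 * c3 * (((2 * (n : ℝ)) ^ 2) ^ m2 * ((2 * (n : ℝ)) ^ 3) ^ m3) ≤
      (dcount n 2 m2 : ℝ) * dcount n 3 m3 := by
    have := mul_le_mul (h2 n m2 hn2 hm2) (h3 n m3 hn3 hm3) (by positivity) (Nat.cast_nonneg _)
    calc _ = c2 * ((2 * (n : ℝ)) ^ 2) ^ m2 * (c3 * ((2 * (n : ℝ)) ^ 3) ^ m3) := by ring
      _ ≤ _ := this
  have h4 := SS_le n m2 m3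
  have h5 := dd_sub_le n m2 m3
  have h6 := SS_le_dd n m2 m3
  have h7 := SS_nonneg n m2 m3
  generalize ((2 * (n : ℝ)) ^ 2) ^ m2 * ((2 * (n : ℝ)) ^ 3) ^ m3 = X at hX h1 h4 h5
  generalize (dcount n 2 m2 : ℝ) * dcount n 3 m3 = D at h1 h5 h6
  generalize c2 * c3 = c at hc h1
  have hD : 0 < D := lt_of_lt_of_le (mul_pos hc hX) h1
  have hp0 : 0 ≤ pm n m2 m3 := nonneg_of_mul_nonneg_left (le_trans h7 h4) hX
  have hq0 : 0 ≤ 1 - pm n m2 m3 := nonneg_of_mul_nonneg_left (le_trans (by linarith) h5) hX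
  have e1 : (1 : ℝ) - SS n m2 m3 / D = (D - SS n m2 m3) / D := by
    field_simp
  refine ⟨?_, ?_⟩
  · rw [div_le_div_iff₀ hD hc]
    calc SS n m2 m3 * c ≤ pm n m2 m3 * X * c := mul_le_mul_of_nonneg_right h4 hc.le
      _ = pm n m2 m3 * (c * X) := by ring
      _ ≤ pm n m2 m3 * D := mul_le_mul_of_nonneg_left h1 hp0
  · rw [e1, div_le_div_iff₀ hD hc]
    calc (D - SS n m2 m3) * c ≤ (1 - pm n m2 m3) * X * c := mul_le_mul_of_nonneg_right h5 hc.le
      _ = (1 - pm n m2 m3) * (c * X) := by ring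
      _ ≤ (1 - pm n m2 m3) * D := mul_le_mul_of_nonneg_left h1 hq0

theorem nonempty_clause {n k : ℕ} (h : k ≤ n) : Nonempty (Clause n k) := by
  classical
  obtain ⟨S, hS1, hS2⟩ := Finset.exists_subset_card_eq (s := (univ : Finset (Fin n))) (n := k)
    (by simpa using h)
  refine ⟨⟨fun i => if i ∈ S then some true else none, ?_⟩⟩
  rw [← hS2]
  congr 1
  ext i
  simp

theorem satP_succ2 (n m2 m3 : ℕ) (hn : 3 ≤ n) : satP n (m2 + 1) m3 ≤ satP n m2 m3 := by
  have : Nonempty (Clause n 2) := nonempty_clause (by omega)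
  rw [satP_eq_E, satP_eq_E, E_cons]
  calc _ ≤ E (fun _ : Clause n 2 => E (fun F2 : Fin m2 → Clause n 2 =>
        E (fun F3 : Fin m3 → Clause n 3 =>
          ind (∃ a : Fin n → Bool, (∀ j, Satisfies a (F2 j)) ∧ ∀ j, Satisfies a (F3 j))))) := by
        refine E_mono fun c => E_mono fun F2 => E_mono fun F3 => ind_mono ?_
        rintro ⟨a, h1, h2⟩
        exact ⟨a, fun j => by simpa using h1 j.succ, h2⟩
    _ = _ := E_const _

theorem satP_succ3 (n m2 m3 : ℕ) (hn : 3 ≤ n) : satP n m2 (m3 + 1) ≤ satP n m2 m3 := by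
  have : Nonempty (Clause n 3) := nonempty_clause (by omega)
  rw [satP_eq_E, satP_eq_E]
  refine E_mono fun F2 => ?_
  rw [E_cons]
  calc _ ≤ E (fun _ : Clause n 3 => E (fun F3 : Fin m3 → Clause n 3 =>
          ind (∃ a : Fin n → Bool, (∀ j, Satisfies a (F2 j)) ∧ ∀ j, Satisfies a (F3 j)))) := by
        refine E_mono fun c => E_mono fun F3 => ind_mono ?_
        rintro ⟨a, h1, h2⟩
        exact ⟨a, h1, fun j => by simpa using h2 j.succ⟩
    _ = _ := E_const _

theorem mo : S_MO := by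
  intro n m2 m3 m2' m3' h2 h3 hn
  calc satP n m2' m3' ≤ satP n m2 m3' :=
        antitone_nat_of_succ_le (f := fun m => satP n m m3') (fun m => satP_succ2 n m m3' hn) h2
    _ ≤ satP n m2 m3 :=
        antitone_nat_of_succ_le (f := fun m => satP n m2 m) (fun m => satP_succ3 n m2 m hn) h3

/-! ### random 2-SAT above the density one -/

open Pool.Agent.H986R2 in
theorem ratio_le (n m : ℕ) (hn : 3 ≤ n) : satP n m 0 ≤ TwoP.probSat n m 0 := by
  classical
  have hT : 0 < (TwoP.two n).card := by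
    apply Finset.card_pos.mpr
    refine ⟨((⟨0, by omega⟩, true), (⟨1, by omega⟩, true)), ?_⟩
    simp [TwoP.two]
  have hT' : (0 : ℝ) < (TwoP.two n).card := by exact_mod_cast hT
  -- the number of ordered clauses
  have hd0 : dcount n 3 0 = 1 := by
    unfold dcount
    rw [Finset.filter_true_of_mem]
    · simp
    · intro F _ j; exact j.elim0
  have hd2 : dcount n 2 m = (TwoP.two n).card ^ m := by
    unfold dcount
    have e1 : univ.filter (fun F : Fin m → Cl n 2 => ∀ j, Function.Injective (fun p => (F j p).1)) =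
        Fintype.piFinset (fun _ : Fin m => univ.filter
          (fun c : Cl n 2 => Function.Injective (fun p => (c p).1))) := by
      ext F
      simp [Fintype.mem_piFinset]
    rw [e1, Fintype.card_piFinset, Finset.prod_const, Finset.card_univ, Fintype.card_fin]
    congr 1
    refine Finset.card_bij (fun c _ => (c 0, c 1)) ?_ ?_ ?_
    · intro c hc
      rw [Finset.mem_filter] at hc
      simp only [TwoP.two, Finset.mem_filter, Finset.mem_univ, true_and]
      intro h
      exact absurd (hc.2 h) (by decide)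
    · intro c1 _ c2 _ h
      have h0 := congrArg Prod.fst h
      have h1 := congrArg Prod.snd h
      funext p
      fin_cases p
      · exact h0
      · exact h1
    · intro b hb
      simp only [TwoP.two, Finset.mem_filter, Finset.mem_univ, true_and] at hb
      refine ⟨![b.1, b.2], ?_, by simp⟩
      rw [Finset.mem_filter]
      refine ⟨Finset.mem_univ _, ?_⟩
      intro p q hpq
      fin_cases p <;> fin_cases q
      · rfl
      · exact absurd hpq hb
      · exact absurd hpq.symm hb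
      · rfl
  let e : (Fin m → Cl n 2) → (Fin m → TwoP.Clause n) := fun F i => Sum.inl (F i 0, F i 1)
  have he : Function.Injective e := by
    intro F G h
    funext i p
    have h1 := Sum.inl_injective (congrFun h i)
    have h2 := congrArg Prod.fst h1
    have h3 := congrArg Prod.snd h1
    fin_cases p
    · exact h2
    · exact h3
  have hSS : SS n m 0 = ∑ G2 : Fin m → Cl n 2, JJ G2 * ind (Sol G2).Nonempty := by
    unfold SS
    refine Finset.sum_congr rfl fun G2 _ => ?_
    congr 1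
    rw [Fintype.sum_unique]
    have h1 : JJ (default : Fin 0 → Cl n 3) = 1 := ind_true (fun j => j.elim0)
    rw [h1, one_mul]
    congr 2
    ext a
    simp [Sol]
  rw [satP_eq, hd0, hSS, hd2, Nat.cast_one, mul_one, Finset.sum_div]
  unfold TwoP.probSat
  have hnn : ∀ f : Fin m → TwoP.Clause n, 0 ≤ (∏ i, TwoP.wt n 0 (f i)) *
      (if ∃ A : Fin n → Bool, ∀ i, TwoP.SatC A (f i) then 1 else 0) := by
    intro f
    apply mul_nonneg (prod_nonneg (fun i _ => TwoP.wt_nonneg n 0 le_rfl zero_le_one _))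
    split_ifs <;> norm_num
  calc ∑ G2 : Fin m → Cl n 2, JJ G2 * ind (Sol G2).Nonempty / (((TwoP.two n).card ^ m : ℕ) : ℝ)
      ≤ ∑ G2 : Fin m → Cl n 2, (∏ i, TwoP.wt n 0 (e G2 i)) *
      (if ∃ A : Fin n → Bool, ∀ i, TwoP.SatC A (e G2 i) then 1 else 0) := by
        refine Finset.sum_le_sum fun G2 _ => ?_
        by_cases hJ : ∀ j, Function.Injective (fun p => (G2 j p).1)
        · by_cases hS : (Sol G2).Nonempty
          · have h1 : JJ G2 = 1 := ind_true hJ
            rw [h1, ind_true hS]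
            have h2 : ∃ A : Fin n → Bool, ∀ i, TwoP.SatC A (e G2 i) := by
              obtain ⟨a, ha⟩ := hS
              refine ⟨a, fun i => ?_⟩
              obtain ⟨p, hp⟩ := ha i
              show TwoP.Holds a (G2 i 0) ∨ TwoP.Holds a (G2 i 1)
              fin_cases p
              · exact Or.inl hp
              · exact Or.inr hp
            rw [if_pos h2]
            have h3 : ∀ i, TwoP.wt n 0 (e G2 i) = 1 / ((TwoP.two n).card : ℝ) := by
              intro i
              show (if (G2 i 0, G2 i 1) ∈ TwoP.two n then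
                ((1 : ℝ) - 0) / ((TwoP.two n).card : ℝ) else 0) = _
              rw [if_pos]
              · rw [sub_zero]
              · simp only [TwoP.two, Finset.mem_filter, Finset.mem_univ, true_and]
                intro h
                exact absurd (hJ i h) (by decide)
            rw [Finset.prod_congr rfl (fun i _ => h3 i), Finset.prod_const, Finset.card_univ,
              Fintype.card_fin]
            push_cast
            rw [div_pow, one_pow]
            simp
          · rw [ind_false hS, mul_zero, zero_div]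
            exact hnn _
        · have h1 : JJ G2 = 0 := ind_false hJ
          rw [h1, zero_mul, zero_div]
          exact hnn _
    _ = ∑ f ∈ univ.image e, (∏ i, TwoP.wt n 0 (f i)) *
      (if ∃ A : Fin n → Bool, ∀ i, TwoP.SatC A (f i) then 1 else 0) := by
        rw [Finset.sum_image (fun a _ b _ h => he h)]
    _ ≤ _ := Finset.sum_le_sum_of_subset_of_nonneg (Finset.subset_univ _) (fun f _ _ => hnn f)

open Pool.Agent.H986R2 in
theorem two : S_TWO := by
  intro r hr
  have hr0 : 0 < r := by linarith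
  set x : ℝ := (1 - 1 / r) / 2 with hx
  have hr1 : 1 / r < 1 := by rw [div_lt_one hr0]; exact hr
  have hri : 0 < 1 / r := by positivity
  have hx0 : 0 < x := by rw [hx]; linarith
  have hx1 : x < 1 / 2 := by rw [hx]; linarith
  set bb : ℝ := x / (2 * r) with hbb
  have hb0 : 0 < bb := by positivity
  have hcr := TwoP.criterion (J := Unit) 0 r le_rfl zero_le_one hr0 (fun _ => bb) (fun _ => 1)
    (fun _ => hb0.le) (fun _ => zero_le_one) (fun _ => le_rfl) (by
      have h1 : bb ≤ 1 := by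
        rw [hbb, div_le_one (by positivity)]
        linarith
      simp [TwoP.om]
      linarith) (by
      have key : TwoP.Psi (J := Unit) 0 r (fun _ => bb) (fun _ => 1) =
          (x ^ 2 / 4) * (Real.exp (-x) * (1 + x / 2) - 1 / r) := by
        simp only [TwoP.Psi, TwoP.om, TwoP.uu, Fintype.sum_sum_type, Fintype.sum_prod_type,
          Finset.univ_unique, Finset.sum_singleton, sub_zero, mul_one, zero_mul, min_self,
          mul_zero, add_zero]
        have e1 : 3 * r * (2 / 3 * bb) = x := by rw [hbb]; field_simp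
        rw [e1]
        have e2 : min (1 : ℝ) (1 + 1) = 1 := by norm_num
        rw [e2, hbb]
        field_simp
        ring
      rw [key]
      have h1 : 1 - x ≤ Real.exp (-x) := by
        have := Real.add_one_le_exp (-x); linarith
      have h2 : (1 - x) * (1 + x / 2) ≤ Real.exp (-x) * (1 + x / 2) :=
        mul_le_mul_of_nonneg_right h1 (by linarith)
      have h3 : 1 / r < (1 - x) * (1 + x / 2) := by
        have : 1 / r = 1 - 2 * x := by rw [hx]; ring
        rw [this]
        nlinarith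
      exact mul_pos (by positivity) (by linarith))
  refine squeeze_zero' (Eventually.of_forall fun n => ?_) ?_ hcr
  · rw [satP_eq_E]
    exact E_nonneg fun _ => E_nonneg fun _ => ind_nonneg _
  · filter_upwards [eventually_ge_atTop 3] with n hn
    exact ratio_le n _ hn

end Pool.Agent.W108.TP
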